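import Pool.Agent.H21.L.R_pool_sql_team_seeded_2aa45f1a.Q5.RN.CSys
import Pool.Agent.H21.L.R_seed8.W524.RY.Abs
import Pool.Agent.H21.L.R_seed8.W524.RY.Han

/-!
# Rotated Mittag-Leffler means of an Euler product with complex coefficients

The method is that of `Pool.Agent.W524.RY` (elliptic curves over the rational numbers), for an arbitrary system of
primes and a meromorphic continuation.
-/

set_option autoImplicit false

open Filter Topology Set Complex MeasureTheory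
open Pool.Agent.TH942.ES (zv xv gv GG Sys)
open Pool.Agent.TH942.ES.Sys (xv_diff)
open Pool.Agent.W189.ML (grow HS J Adm J_hasSum norm_J_le J_const_mul)
open Pool.Agent.W524.RY (main_abs J_cexp)

namespace Pool.Agent.Q5.RN

variable {X : Type} {d : ℕ} {N : X → ℕ} {α : X → Fin d → ℂ} {Ψ : ℂ → ℂ}

/-- the direction `1 + iτ` -/
noncomputable def dir (τ : ℝ) : ℂ := 1 + τ * I

@[simp] theorem dir_re (τ : ℝ) : (dir τ).re = 1 := by simp [dir]

@[simp] theorem dir_im (τ : ℝ) : (dir τ).im = τ := by simp [dir]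

theorem dir_ne (τ : ℝ) : dir τ ≠ 0 := by
  intro h
  have := dir_re τ
  rw [h] at this
  simp at this

theorem dir_mul_re (τ : ℝ) (w : ℂ) : (dir τ * w).re = w.re - τ * w.im := by
  rw [Complex.mul_re, dir_re, dir_im, one_mul]

theorem dir_mul_real_re (τ x : ℝ) : (dir τ * x).re = x := by
  rw [dir_mul_re]; simp

theorem dir_mul_real_im (τ x : ℝ) : (dir τ * x).im = τ * x := by
  rw [Complex.mul_im]; simp

/-- the weight `1 / Γ(1 + (1 + iτ) u)` -/
noncomputable def wt (τ u : ℝ) : ℂ := (Complex.Gamma (1 + dir τ * u))⁻¹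

/-- `1 / Γ` decays in the direction `1 + iτ` -/
theorem wt_norm (τ : ℝ) {c v : ℝ} (hc : 0 ≤ c) (hv : 0 ≤ v) :
    ‖wt τ v‖ ≤ (Real.exp (Real.exp c) + 1) * Real.exp (-((c - Real.pi * |τ|) * v)) := by
  have h1 := norm_J_le (a := c) (Φ := fun z => Complex.exp (-(z * (dir τ * v)))) hc
    (M := Real.exp (-((c - Real.pi * |τ|) * v))) fun z hz => by
      rw [Complex.norm_exp]
      apply Real.exp_le_exp.2
      have e1 : (-(z * (dir τ * v))).re = -((dir τ * z).re * v) := by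
        have : -(z * (dir τ * v)) = -((dir τ * z) * (v : ℂ)) := by ring
        rw [this, Complex.neg_re, Complex.re_mul_ofReal]
      rw [e1, dir_mul_re]
      have h2 : τ * z.im ≤ Real.pi * |τ| := by
        calc τ * z.im ≤ |τ| * |z.im| := by rw [← abs_mul]; exact le_abs_self _
          _ ≤ |τ| * Real.pi := mul_le_mul_of_nonneg_left hz.2 (abs_nonneg _)
          _ = _ := by ring
      have h3 := hz.1
      nlinarith
  rwa [J_cexp] at h1

/-- the mean in the direction `1 + iτ`, `T = log X` -/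
noncomputable def cmean (N : X → ℕ) (α : X → Fin d → ℂ) (τ T : ℝ) : ℂ :=
  ∑' v, ccv N α v * wt τ (Real.log (N v) / T)

namespace CSys

variable (E : CSys N α)
include E

/-- the mean as a contour integral -/
theorem cmean_eq (τ : ℝ) {T : ℝ} (hT : 1 ≤ T) (hτ : Real.pi * |τ| ≤ T) :
    J (3 * T) (fun z => ∑' v, ccv N α v * xv N v (dir τ * (z / T))) = cmean N α τ T := by
  have hcnt := E.cnt
  have hT0 : (0 : ℝ) < T := by linarith
  have hre : ∀ z ∈ HS (3 * T), 2 ≤ (dir τ * (z / T)).re := by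
    intro z hz
    have e1 : (z / T).re = z.re / T := by simp
    have e2 : (z / T).im = z.im / T := by simp
    rw [dir_mul_re, e1, e2]
    have h1 : 3 ≤ z.re / T := by
      rw [le_div_iff₀ hT0]
      exact hz.1
    have h2 : τ * (z.im / T) ≤ 1 := by
      rw [mul_div_assoc', div_le_one hT0]
      have h3 : τ * z.im ≤ |τ| * |z.im| := by rw [← abs_mul]; exact le_abs_self _
      have h4 : |τ| * |z.im| ≤ |τ| * Real.pi := mul_le_mul_of_nonneg_left hz.2 (abs_nonneg _)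
      linarith
    linarith
  have h1 := J_hasSum (a := 3 * T) (by positivity)
    (F := fun (v : X) z => ccv N α v * xv N v (dir τ * (z / T)))
    (g := fun v => 4 * d * (N v : ℝ) ^ (-(1 / 2 + 2 : ℝ)))
    ((E.sum (1 / 2 + 2) (by norm_num)).mul_left (4 * (d : ℝ)))
    (fun v => ⟨by
      have h5 : Continuous (xv N v) := (xv_diff v).continuous
      have h6 : Continuous fun z : ℂ => ccv N α v * xv N v (dir τ * (z / T)) :=
        continuous_const.mul (h5.comp (by fun_prop))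
      exact h6.continuousOn, 4 * d * (N v : ℝ) ^ (-(1 / 2 + 2 : ℝ)), 0, by positivity, le_rfl,
      fun z hz => by
        have := E.cx_norm (hre z hz) v
        simpa using this⟩) fun v z hz => E.cx_norm (hre z hz) v
  have h2 : ∀ v : X, J (3 * T) (fun z => ccv N α v * xv N v (dir τ * (z / T))) =
      ccv N α v * wt τ (Real.log (N v) / T) := by
    intro v
    have e3 : (fun z : ℂ => ccv N α v * xv N v (dir τ * (z / T))) =
        fun z => ccv N α v * Complex.exp (-(z * (dir τ * (Real.log (N v) / T)))) := by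
      funext z
      unfold xv
      congr 2
      ring
    rw [e3, J_const_mul, J_cexp]
    unfold wt
    push_cast
    rfl
  simp only [h2] at h1
  exact h1.tsum_eq.symm

theorem term_norm (τ : ℝ) {T : ℝ} (hT : 0 < T) (v : X) :
    ‖ccv N α v * wt τ (Real.log (N v) / T)‖ ≤
      4 * d * (Real.exp (Real.exp (2 * T + Real.pi * |τ|)) + 1) * (N v : ℝ) ^ (-(5 / 2) : ℝ) := by
  have hN := E.Npos v
  have hv : 0 ≤ Real.log (N v) / T := div_nonneg (E.logN v).le hT.le
  have h2 := wt_norm τ (c := 2 * T + Real.pi * |τ|) (by positivity) hv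
  have h3 : Real.exp (-((2 * T + Real.pi * |τ| - Real.pi * |τ|) * (Real.log (N v) / T))) =
      (N v : ℝ) ^ (-2 : ℝ) := by
    rw [Real.rpow_def_of_pos hN]
    congr 1
    field_simp
    ring
  rw [h3] at h2
  have h1 := E.ccv_norm v
  rw [norm_mul]
  calc ‖ccv N α v‖ * _ ≤ (4 * d * (N v : ℝ) ^ (-(1 / 2 : ℝ))) *
        ((Real.exp (Real.exp (2 * T + Real.pi * |τ|)) + 1) * (N v : ℝ) ^ (-2 : ℝ)) :=
        mul_le_mul h1 h2 (norm_nonneg _) (by positivity)
    _ = 4 * d * (Real.exp (Real.exp (2 * T + Real.pi * |τ|)) + 1) *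
        ((N v : ℝ) ^ (-(1 / 2 : ℝ)) * (N v : ℝ) ^ (-2 : ℝ)) := by ring
    _ = _ := by
      rw [← Real.rpow_add hN]
      norm_num

/-- absolute convergence -/
theorem mean_summable (τ : ℝ) {T : ℝ} (hT : 0 < T) :
    Summable fun v => ‖ccv N α v * wt τ (Real.log (N v) / T)‖ :=
  Summable.of_nonneg_of_le (fun v => norm_nonneg _) (fun v => E.term_norm τ hT v)
    ((E.sum (5 / 2) (by norm_num)).mul_left _)

/-- **The asymptotic formula for the mean.** -/
theorem cmean_asymp (hΨ : ∀ s : ℂ, 1 / 2 < s.re →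
      HasProd (fun v => ∏ i, (1 - zv N α v i * xv N v s)⁻¹) (Ψ s))
    (τ : ℝ) {x₀ x₁ : ℝ} (h1 : x₀ ≤ 1) (hx1 : 0 ≤ x₁) (hx2 : x₁ ≤ x₀) {m : ℤ} {Q : ℂ → ℂ}
    (hQa : ∀ x ∈ Icc x₁ 3, AnalyticAt ℂ Q (x : ℂ)) (hQ0 : ∀ x ∈ Icc x₁ 3, Q (x : ℂ) ≠ 0)
    (hQ : ∀ᶠ w in 𝓝 (3 : ℂ), Ψ (dir τ * w) = (w - x₀) ^ m * Q w) :
    ∃ C T₀ : ℝ, 0 ≤ C ∧ 1 ≤ T₀ ∧ ∀ T : ℝ, T₀ ≤ T →
      ‖cmean N α τ T - m * ((Real.log T + grow (x₀ * T) : ℝ) : ℂ)‖ ≤
        C * Real.exp (Real.exp (x₁ * T)) := by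
  set κ : ℝ := 1 / (2 * (1 + |τ|)) with hκ
  have hτ0 := abs_nonneg τ
  have hκ0 : 0 < κ := by positivity
  have hκτ : |τ| * κ ≤ 1 / 2 := by
    rw [hκ, mul_one_div, div_le_iff₀ (by positivity)]
    linarith
  obtain ⟨CG, hCG⟩ := E.GG_sector (K := 4 * (1 + |τ|)) (by positivity)
  -- the geometry of the sector
  have hsec : ∀ ζ : ℂ, 0 < ζ.re → |ζ.im| ≤ κ * ζ.re →
      0 < (dir τ * ζ).re ∧ ‖dir τ * ζ‖ ≤ 4 * (1 + |τ|) * (dir τ * ζ).re := by
    intro ζ hζ hζi
    have e1 : τ * ζ.im ≤ 1 / 2 * ζ.re := by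
      calc τ * ζ.im ≤ |τ| * |ζ.im| := by rw [← abs_mul]; exact le_abs_self _
        _ ≤ |τ| * (κ * ζ.re) := mul_le_mul_of_nonneg_left hζi hτ0
        _ = (|τ| * κ) * ζ.re := by ring
        _ ≤ 1 / 2 * ζ.re := mul_le_mul_of_nonneg_right hκτ hζ.le
    have e2 : 1 / 2 * ζ.re ≤ (dir τ * ζ).re := by
      rw [dir_mul_re]; linarith
    refine ⟨by linarith, ?_⟩
    have e3 : ‖dir τ‖ ≤ 1 + |τ| := by
      have := Complex.norm_le_abs_re_add_abs_im (dir τ)
      simpa using this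
    have e4 : ‖ζ‖ ≤ 2 * ζ.re := by
      have h5 := Complex.norm_le_abs_re_add_abs_im ζ
      rw [abs_of_pos hζ] at h5
      have h6 : κ ≤ 1 := by
        rw [hκ, div_le_one (by positivity)]
        linarith
      have : κ * ζ.re ≤ 1 * ζ.re := mul_le_mul_of_nonneg_right h6 hζ.le
      linarith
    rw [norm_mul]
    calc ‖dir τ‖ * ‖ζ‖ ≤ (1 + |τ|) * (2 * ζ.re) := by gcongr
      _ = 4 * (1 + |τ|) * (1 / 2 * ζ.re) := by ring
      _ ≤ _ := by gcongr
  have hstrip : ∀ ζ : ℂ, 3 ≤ ζ.re → |ζ.im| ≤ κ → 2 ≤ (dir τ * ζ).re := by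
    intro ζ hζ hζi
    rw [dir_mul_re]
    have : τ * ζ.im ≤ 1 / 2 := by
      calc τ * ζ.im ≤ |τ| * |ζ.im| := by rw [← abs_mul]; exact le_abs_self _
        _ ≤ |τ| * κ := mul_le_mul_of_nonneg_left hζi hτ0
        _ ≤ 1 / 2 := hκτ
    linarith
  set S : ℂ → ℂ := fun s => ∑' v, ccv N α v * xv N v s with hS
  have hSd : ∀ s : ℂ, 1 / 2 < s.re → DifferentiableAt ℂ S s := fun s hs => E.ser_diff hs
  have h3re : (dir τ * 3).re = 3 := by
    have := dir_mul_real_re τ 3
    simpa using this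
  obtain ⟨C, T₀, hC⟩ := main_abs (S := fun ζ => S (dir τ * ζ))
    (G := fun ζ => GG N α (dir τ * ζ)) (Q := Q) (κ := κ) (CG := CG)
    (CS := ∑' v, 4 * d * (N v : ℝ) ^ (-(5 / 2 : ℝ)))
    hκ0 hx1 hx2 h1 m
    (fun ζ h2 h3 => DifferentiableAt.comp (g := GG N α) (f := fun ζ : ℂ => dir τ * ζ) ζ
      (E.GG_diff (hsec ζ h2 h3).1) (by fun_prop))
    (fun ζ h2 h3 => hCG _ (hsec ζ h2 h3).1 (hsec ζ h2 h3).2)
    (fun ζ hζ => by
      have h5 : DifferentiableAt ℂ (fun ζ => S (dir τ * ζ)) ζ :=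
        DifferentiableAt.comp (g := S) (f := fun ζ : ℂ => dir τ * ζ) ζ
          (hSd _ (by have := hstrip ζ hζ.1 hζ.2; linarith)) (by fun_prop)
      exact h5.continuousAt.continuousWithinAt)
    (fun ζ h2 h3 => E.ser_norm (hstrip ζ h2 h3))
    (by
      have h5 : DifferentiableAt ℂ (fun ζ => S (dir τ * ζ)) 3 :=
        DifferentiableAt.comp (g := S) (f := fun ζ : ℂ => dir τ * ζ) 3
          (hSd _ (by rw [h3re]; norm_num)) (by fun_prop)
      exact h5.continuousAt)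
    hQa hQ0 (by
      have e1 : {w : ℂ | 1 < (dir τ * w).re} ∈ 𝓝 (3 : ℂ) := by
        refine (isOpen_lt continuous_const (Complex.continuous_re.comp (by fun_prop))).mem_nhds ?_
        show (1 : ℝ) < (dir τ * 3).re
        rw [h3re]
        norm_num
      filter_upwards [e1, hQ] with w hw hw2
      have hw' : 1 < (dir τ * w).re := hw
      have e2 := E.exp_eq (s := dir τ * w) (by linarith) (hΨ _ (by linarith))
      rw [← hw2, ← e2])
  refine ⟨|C|, max T₀ (max 1 (Real.pi * |τ|)), abs_nonneg _,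
    (le_max_left _ _).trans (le_max_right _ _), fun T hT => ?_⟩
  have hT1 : 1 ≤ T := ((le_max_left _ _).trans (le_max_right _ _)).trans hT
  have hTτ : Real.pi * |τ| ≤ T := ((le_max_right _ _).trans (le_max_right _ _)).trans hT
  have h3 := hC T ((le_max_left _ _).trans hT)
  rw [E.cmean_eq τ hT1 hTτ] at h3
  exact h3.trans (mul_le_mul_of_nonneg_right (le_abs_self C) (Real.exp_pos _).le)

end CSys

end Pool.Agent.Q5.RN
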