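import Mathlib

/-!
# Meromorphic functions along a segment
-/

set_option autoImplicit false

open Filter Topology Set Complex

namespace Pool.Agent.Q5.RN

/-- the order at `z` of a power of `w - c` -/
theorem order_zpow_sub (c z : ℂ) (m : ℤ) :
    meromorphicOrderAt (fun w : ℂ => (w - c) ^ m) z = if z = c then (m : WithTop ℤ) else 0 := by
  split_ifs with h
  · rw [h]
    exact fun_meromorphicOrderAt_zpow_id_sub_const
  · have h1 : AnalyticAt ℂ (fun w : ℂ => (w - c) ^ m) z :=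
      (analyticAt_id.sub analyticAt_const).zpow (sub_ne_zero.2 h)
    rw [h1.meromorphicOrderAt_eq, h1.analyticOrderAt_eq_zero.2 (zpow_ne_zero _ (sub_ne_zero.2 h))]
    rfl

theorem exists_Q {P : ℂ → ℂ} (hP : ∀ z, MeromorphicAt P z)
    {x₀ : ℝ} (h0 : 0 ≤ x₀) (h3 : x₀ < 3) {m : ℤ} (hm : meromorphicOrderAt P x₀ = m)
    (hnz : ∀ x : ℝ, x₀ < x → x ≤ 3 → meromorphicOrderAt P x = 0) (hc : ContinuousAt P 3) :
    ∃ (Q : ℂ → ℂ) (x₁ : ℝ), 0 ≤ x₁ ∧ x₁ ≤ x₀ ∧ (0 < x₀ → x₁ < x₀) ∧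
      (∀ x ∈ Icc x₁ 3, AnalyticAt ℂ Q (x : ℂ)) ∧ (∀ x ∈ Icc x₁ 3, Q (x : ℂ) ≠ 0) ∧
      ∀ᶠ w in 𝓝 (3 : ℂ), P w = (w - x₀) ^ m * Q w := by
  set Q₀ : ℂ → ℂ := fun w => (w - x₀) ^ (-m) * P w with hQ₀
  have hz : ∀ z, MeromorphicAt (fun w : ℂ => (w - x₀) ^ (-m)) z := fun z =>
    (MeromorphicAt.id z |>.sub (MeromorphicAt.const _ z)).zpow _
  have hQm : MeromorphicOn Q₀ univ := fun z _ => (hz z).mul (hP z)
  set Q : ℂ → ℂ := toMeromorphicNFOn Q₀ univ with hQ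
  have hnf : ∀ z, MeromorphicNFAt Q z := fun z =>
    meromorphicNFOn_toMeromorphicNFOn Q₀ univ (mem_univ z)
  have hord : ∀ x : ℝ, x₀ ≤ x → x ≤ 3 → meromorphicOrderAt Q x = 0 := by
    intro x h4 h5
    rw [hQ, meromorphicOrderAt_toMeromorphicNFOn hQm (mem_univ _), hQ₀]
    have e1 : meromorphicOrderAt (fun w : ℂ => (w - x₀) ^ (-m) * P w) x =
        meromorphicOrderAt (fun w : ℂ => (w - x₀) ^ (-m)) x + meromorphicOrderAt P x :=
      meromorphicOrderAt_mul (hz x) (hP x)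
    rw [e1, order_zpow_sub]
    rcases h4.lt_or_eq with h | h
    · rw [hnz x h h5, if_neg (by exact_mod_cast h.ne'), add_zero]
    · rw [← h, if_pos rfl, hm]
      rw [← WithTop.coe_add, neg_add_cancel]
      rfl
  have hgood : ∀ x : ℝ, x₀ ≤ x → x ≤ 3 → AnalyticAt ℂ Q x ∧ Q x ≠ 0 := by
    intro x h4 h5
    have h6 := hord x h4 h5
    refine ⟨?_, (hnf x).meromorphicOrderAt_eq_zero_iff.1 h6⟩
    rw [← (hnf x).meromorphicOrderAt_nonneg_iff_analyticAt, h6]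
  obtain ⟨x₁, h4, h5, h6, h7⟩ : ∃ x₁ : ℝ, 0 ≤ x₁ ∧ x₁ ≤ x₀ ∧ (0 < x₀ → x₁ < x₀) ∧
      ∀ x ∈ Icc x₁ 3, AnalyticAt ℂ Q (x : ℂ) ∧ Q (x : ℂ) ≠ 0 := by
    rcases h0.lt_or_eq with h | h
    · obtain ⟨ha, hb⟩ := hgood x₀ le_rfl h3.le
      have h8 : ∀ᶠ w in 𝓝 (x₀ : ℂ), AnalyticAt ℂ Q w ∧ Q w ≠ 0 :=
        ha.eventually_analyticAt.and (ha.continuousAt.eventually_ne hb)
      have h9 : ∀ᶠ x : ℝ in 𝓝 x₀, AnalyticAt ℂ Q (x : ℂ) ∧ Q (x : ℂ) ≠ 0 :=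
        (Complex.continuous_ofReal.tendsto x₀).eventually h8
      obtain ⟨ε, hε, h10⟩ := Metric.eventually_nhds_iff.1 h9
      refine ⟨max 0 (x₀ - ε / 2), le_max_left _ _, max_le h0 (by linarith), fun _ =>
        max_lt h (by linarith), fun x hx => ?_⟩
      by_cases hx0 : x₀ ≤ x
      · exact hgood x hx0 hx.2
      · push Not at hx0
        refine h10 ?_
        have := (le_max_right 0 (x₀ - ε / 2)).trans hx.1
        rw [Real.dist_eq, abs_lt]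
        constructor <;> linarith
    · exact ⟨0, le_rfl, h0, fun h2 => absurd h2 (by rw [← h]; exact lt_irrefl 0), fun x hx =>
        hgood x (by rw [← h]; exact hx.1) hx.2⟩
  refine ⟨Q, x₁, h4, h5, h6, fun x hx => (h7 x hx).1, fun x hx => (h7 x hx).2, ?_⟩
  have hne : (3 : ℂ) ≠ x₀ := by
    have : (3 : ℝ) ≠ x₀ := h3.ne'
    exact_mod_cast this
  have h3a := (hgood 3 h3.le le_rfl).1
  push_cast at h3a
  have h8 : Q =ᶠ[𝓝[≠] (3 : ℂ)] Q₀ := hQm.toMeromorphicNFOn_eq_self_on_nhdsNE (mem_univ _)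
  have h9 : ∀ᶠ w in 𝓝[≠] (3 : ℂ), P w = (w - x₀) ^ m * Q w := by
    have h10 : ∀ᶠ w in 𝓝[≠] (3 : ℂ), w ≠ (x₀ : ℂ) :=
      (isOpen_ne.mem_nhds hne : _ ∈ 𝓝 (3 : ℂ)) |> fun h => mem_nhdsWithin_of_mem_nhds h
    filter_upwards [h8, h10] with w h11 h12
    rw [h11, hQ₀]
    simp only
    rw [← mul_assoc, ← zpow_add₀ (sub_ne_zero.2 h12), add_neg_cancel, zpow_zero, one_mul]
  have hcR : ContinuousAt (fun w : ℂ => (w - x₀) ^ m * Q w) 3 := by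
    refine ContinuousAt.mul ?_ h3a.continuousAt
    exact ContinuousAt.zpow₀ (by fun_prop) _ (Or.inl (sub_ne_zero.2 hne))
  have h13 : P 3 = (3 - (x₀ : ℂ)) ^ m * Q 3 := by
    have e1 : Tendsto P (𝓝[≠] (3 : ℂ)) (𝓝 (P 3)) := hc.tendsto.mono_left nhdsWithin_le_nhds
    have e2 : Tendsto (fun w : ℂ => (w - x₀) ^ m * Q w) (𝓝[≠] (3 : ℂ))
        (𝓝 ((3 - (x₀ : ℂ)) ^ m * Q 3)) := hcR.tendsto.mono_left nhdsWithin_le_nhds
    exact tendsto_nhds_unique (e1.congr' h9) e2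
  rw [eventually_nhdsWithin_iff] at h9
  filter_upwards [h9] with w hw
  by_cases h14 : w = 3
  · rw [h14]
    exact h13
  · exact hw h14

/-- the points of nonzero order of a meromorphic function in a compact set -/
theorem finite_order_ne_zero {F : ℂ → ℂ} (hF : ∀ z, MeromorphicAt F z) {z₀ : ℂ}
    (h0 : meromorphicOrderAt F z₀ ≠ ⊤) {R : Set ℂ} (hR : IsCompact R) :
    {z | z ∈ R ∧ meromorphicOrderAt F z ≠ 0}.Finite := by
  have hon : MeromorphicOn F univ := fun z _ => hF z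
  have hnt : ∀ z, meromorphicOrderAt F z ≠ ⊤ := fun z =>
    hon.meromorphicOrderAt_ne_top_of_isPreconnected isPreconnected_univ (mem_univ z₀) (mem_univ z) h0
  by_contra hinf
  obtain ⟨z, -, hz⟩ := Set.Infinite.exists_accPt_of_subset_isCompact hinf hR (fun w hw => hw.1)
  rw [accPt_iff_frequently_nhdsNE] at hz
  obtain ⟨m, hm⟩ := WithTop.ne_top_iff_exists.1 (hnt z)
  have h1 : ∀ᶠ w in 𝓝[≠] z, AnalyticAt ℂ F w := (hF z).eventually_analyticAt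
  have h2 : ∀ᶠ w in 𝓝[≠] z, F w ≠ 0 :=
    (meromorphicOrderAt_ne_top_iff_eventually_ne_zero (hF z)).1 (hnt z)
  have h3 : ∀ᶠ w in 𝓝[≠] z, meromorphicOrderAt F w = 0 := by
    filter_upwards [h1, h2] with w h4 h5
    rw [h4.meromorphicOrderAt_eq, h4.analyticOrderAt_eq_zero.2 h5]
    rfl
  exact hz (h3.mono fun w h4 h5 => h5.2 h4)

end Pool.Agent.Q5.RN
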